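import Pool.Agent.N641.VB.Stm

/-!
Project VB (helper641), part CON: the algebra over a good type with a prescribed quotient.
-/

set_option autoImplicit false

namespace Pool.Agent.N588.VB

open Pool.Agent.N641.VB

theorem self_mem_Dv {M : Type} [AddCommMonoid M] {e : FT M} (he : Good e) : e ∈ Dv e :=
  ⟨he.rl, e, he.rl, he.idem⟩

/-- there are types of finite kind different from zero -/
theorem exists_fin {M : Type} [AddCommMonoid M] {e : FT M} (he : Good e) :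
    ∃ f ∈ Dv e, (Dv f).Finite ∧ f + e = e ∧ f ≠ 0 := by
  obtain ⟨f, hf, hfin, hfe, hf0⟩ := he.acc e (self_mem_Dv he) he.inf 0
  refine ⟨f, hf, hfin, hfe, ?_⟩
  rintro rfl
  obtain ⟨A, _, mu, a, hm, rfl⟩ := he.rl
  have h1 : (0 : FT M) 0 = ft mu a 0 := hf0 0 le_rfl
  have h2 : (True : Prop) = (a = ⊥) := h1
  have h3 : a = ⊥ := by rw [← h2]; trivial
  apply he.inf
  rw [h3, ft_bot hm]
  exact hfin

theorem CON (LS : S_LS) (SET : S_SET) (FA : S_FA) (TAU : S_TAU) : S_CON := by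
  intro M _ _ e he B _ _ _
  let Fe : Set (FT M) := {f | f ∈ Dv e ∧ (Dv f).Finite ∧ f + e = e ∧ f ≠ 0}
  have hFc : Fe.Countable := he.ct.mono fun f hf => hf.1
  haveI : Countable Fe := hFc.to_subtype
  haveI : Nonempty Fe := by
    obtain ⟨f, h1, h2, h3, h4⟩ := exists_fin he
    exact ⟨⟨f, h1, h2, h3, h4⟩⟩
  obtain ⟨g, hg⟩ := exists_surjective_nat Fe
  choose PA iPA nuA hcA hAM hft using fun j : ℕ => LS M (g j).1 (g j).2.1.1
  obtain ⟨h, hsup, hcompl, hsep⟩ := SET B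
  let P : ℕ × ℕ × ℕ → Type := fun i => PA i.2.2
  letI iP : ∀ i, BooleanAlgebra (P i) := fun i => iPA i.2.2
  haveI iPc : ∀ i, Countable (P i) := fun i => hcA i.2.2
  let nu : ∀ i, P i → M := fun i => nuA i.2.2
  have hAM' : ∀ i, AM (nu i) := fun i => hAM i.2.2
  have hft' : ∀ i : ℕ × ℕ × ℕ, ft (nu i) ⊤ = (g i.2.2).1 := fun i => hft i.2.2
  haveI iPn : ∀ i, Nontrivial (P i) := by
    intro i
    refine ⟨⟨⊤, ⊥, fun htb => ?_⟩⟩
    have h1 := hft' i
    rw [htb, ft_bot (hAM' i)] at h1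
    exact (g i.2.2).2.2.2.2 h1.symm
  let r : B → Set (ℕ × ℕ × ℕ) := fun b => {i | h i.1 b}
  have hr1 : ∀ b c, r (b ⊔ c) = r b ∪ r c := by
    intro b c
    ext i
    exact hsup i.1 b c
  have hr2 : ∀ b, r bᶜ = (r b)ᶜ := by
    intro b
    ext i
    exact hcompl i.1 b
  have hr3 : ∀ b, b ≠ ⊥ → ∀ f ∈ Dv e, (Dv f).Finite → f + e = e → f ≠ 0 →
      {i | i ∈ r b ∧ ft (nu i) ⊤ = f}.Infinite := by
    intro b hb f h1 h2 h3 h4
    obtain ⟨n, hn⟩ := hsep b hb
    obtain ⟨j, hj⟩ := hg ⟨f, h1, h2, h3, h4⟩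
    refine Set.infinite_of_injective_forall_mem (f := fun m : ℕ => ((n, m, j) : ℕ × ℕ × ℕ)) ?_ ?_
    · intro m m' hm
      simpa using hm
    · intro m
      refine ⟨hn, ?_⟩
      rw [hft' (n, m, j)]
      show (g j).1 = f
      rw [hj]
  have hr4 : ∀ b, b ≠ ⊥ → (r b).Infinite := by
    intro b hb
    obtain ⟨f, h1, h2, h3, h4⟩ := exists_fin he
    exact (hr3 b hb f h1 h2 h3 h4).mono fun i hi => hi.1
  obtain ⟨A, iA, val, π, hAc, hFA⟩ := FA (ℕ × ℕ × ℕ) P B r hr1 hr2 hr4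
  obtain ⟨mu, hmu, hfin, hinf, htop⟩ := TAU M e he (ℕ × ℕ × ℕ) P nu B r A val π hr1 hr2 hAM'
    (fun i => by
      rw [hft' i]
      exact ⟨(g i.2.2).2.1, (g i.2.2).2.2.1, (g i.2.2).2.2.2.1⟩) hr3 hFA
  refine ⟨A, iA, mu, π, hAc, hmu, htop inferInstance, ?_, hFA.psup, hFA.psdiff, ?_⟩
  · intro b
    classical
    obtain ⟨x, -, hx⟩ := hFA.surj b (fun i => if i ∈ r b then ⊤ else ⊥) (by
      convert Set.finite_empty
      ext i
      simp only [Set.mem_setOf_eq, Set.mem_empty_iff_false, iff_false, not_and, not_not]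
      intro hi
      rw [if_pos hi]) (by
      convert Set.finite_empty
      ext i
      simp only [Set.mem_setOf_eq, Set.mem_empty_iff_false, iff_false, not_and, not_not]
      intro hi
      rw [if_neg hi])
    exact ⟨x, hx⟩
  · intro a
    constructor
    · intro h1
      by_contra h2
      exact hinf a h2 h1
    · exact hfin a

end Pool.Agent.N588.VB
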